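import Mathlib

/-! Project PL: statements of the analytic pieces (no wiring diagrams here). -/

open MeasureTheory Set Filter
open scoped ENNReal NNReal Topology

namespace Pool.Agent.Helper8.PL.Spec

/-- PL-A. Lipschitz functions are almost affine on most squares at some scale. The square `q` of
order `n` has the lower left corner `(q.1 / 2 ^ n, q.2 / 2 ^ n)` and the side `1 / 2 ^ n`. -/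
theorem affine_scale (m : ℕ) (L : ℝ≥0) (B n₁ : ℕ) {ε : ℝ} (hε : 0 < ε) :
    ∃ n₀ : ℕ, ∀ φ : ℝ × ℝ → (Fin m → ℝ), LipschitzWith L φ → ∃ n, n₁ ≤ n ∧ n ≤ n₀ ∧
      ∀ S : Finset (ℕ × ℕ), S ⊆ Finset.range (B * 2 ^ n) ×ˢ Finset.range (B * 2 ^ n) →
        (∀ q ∈ S, ¬ ∃ (A : (ℝ × ℝ) →L[ℝ] (Fin m → ℝ)) (b : Fin m → ℝ), ‖A‖ ≤ L ∧
          ∀ z : ℝ × ℝ, dist z ((q.1 : ℝ) / 2 ^ n, (q.2 : ℝ) / 2 ^ n) ≤ 4 / 2 ^ n →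
            ‖φ z - A z - b‖ ≤ ε / 2 ^ n) →
        (S.card : ℝ) ≤ ε * 4 ^ n := by
  sorry

/-- PL-B. The area of a neighbourhood of the affine image of a square. -/
theorem area_nbhd {L η : ℝ} (hL : 0 < L) (hη : 0 < η) : ∃ ε : ℝ, 0 < ε ∧
    ∀ (v w b z₀ : ℝ × ℝ) (l : ℝ), |v.1| ≤ L → |v.2| ≤ L → |w.1| ≤ L → |w.2| ≤ L → 0 < l →
      volume {y : ℝ × ℝ | ∃ z : ℝ × ℝ, z₀.1 ≤ z.1 ∧ z.1 ≤ z₀.1 + l ∧ z₀.2 ≤ z.2 ∧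
        z.2 ≤ z₀.2 + l ∧ |y.1 - (v.1 * z.1 + v.2 * z.2 + b.1)| ≤ ε * l ∧
        |y.2 - (w.1 * z.1 + w.2 * z.2 + b.2)| ≤ ε * l} ≤
      ENNReal.ofReal ((|v.1 * w.2 - v.2 * w.1| + η) * l ^ 2) := by
  sorry

/-- PL-C. The sign lemma. -/
theorem sign_lemma {L η : ℝ} (hL : 1 ≤ L) (hη : 0 < η) (hη1 : η ≤ 1) : ∃ σ₀ e : ℝ, 0 < σ₀ ∧
    L * σ₀ ≤ 1 ∧ 0 < e ∧ ∀ σ τ v1 v2 w1 w2 : ℝ, σ₀ / 2 ≤ σ → σ ≤ σ₀ → 0 ≤ τ → τ ≤ L * σ →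
      |v1| ≤ L → |v2| ≤ L → |w1| ≤ L → |w2| ≤ L →
      -e ≤ v1 * σ + v2 * τ → -e ≤ w1 * σ + w2 * τ →
      (∀ μ, 0 ≤ μ → μ ≤ 1 → μ * v2 - (v1 * σ + v2 * τ) ≤ e ∨
        -e ≤ μ * w2 - (w1 * σ + w2 * τ)) →
      (∀ μ, 0 ≤ μ → μ ≤ 1 → (v1 * σ + v2 * τ) + μ * v2 ≤ e ∨
        -e ≤ (w1 * σ + w2 * τ) + μ * w2) →
      -η ≤ v1 * w2 - v2 * w1 := by
  sorry

/-- PL-D. Balanced position: vectors in the plane which are not all parallel. -/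
theorem exists_frame {m : ℕ} (v : Fin m → ℝ × ℝ)
    (h : ∃ c c', (v c).1 * (v c').2 - (v c).2 * (v c').1 ≠ 0) :
    ∃ ρ α : Fin m → ℝ, (∀ c, 0 ≤ ρ c) ∧
      (∀ c c', |(v c).1 * (v c').2 - (v c).2 * (v c').1| =
        ρ c * ρ c' * |Real.sin (α c - α c')|) ∧
      ∑ c, ρ c * Real.cos (2 * α c) = 0 ∧ ∑ c, ρ c * Real.sin (2 * α c) = 0 := by
  sorry

/-- PL-E. Positivity of the kernel. -/
theorem kernel_psd (p : Polynomial ℝ) : ∃ a₀ : ℝ, 0 < a₀ ∧ ∀ a : ℝ, 0 ≤ a → a ≤ a₀ →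
    ∀ (m : ℕ) (ρ α : Fin m → ℝ),
      ∑ c, ρ c * Real.cos (2 * α c) = 0 → ∑ c, ρ c * Real.sin (2 * α c) = 0 →
      0 ≤ ∑ c, ∑ c', ρ c * ρ c' * |Real.sin (α c - α c')| *
        (Real.sin (α c - α c') ^ 2 + a * p.eval (Real.cos (α c - α c') ^ 2) -
          (2 / 3 + a * ∫ x in (0 : ℝ)..1, p.eval (x ^ 2))) := by
  sorry

/-- PL-F1. The polynomial. -/
theorem exists_poly : ∃ p : Polynomial ℝ, p.eval 0 < -2 ∧ p.eval (1 / 4) < -(1 / 2) ∧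
    (∀ y : ℝ, 0 ≤ y → y ≤ 1 → p.eval y ≤ 1 / 4) ∧ 0 < ∫ x in (0 : ℝ)..1, p.eval (x ^ 2) := by
  sorry

/-- PL-F2. The vertex inequality. -/
theorem vertex_ineq {p : Polynomial ℝ} (h0 : p.eval 0 < -2) (h1 : p.eval (1 / 4) < -(1 / 2))
    (h2 : ∀ y : ℝ, 0 ≤ y → y ≤ 1 → p.eval y ≤ 1 / 4) : ∃ a₀ : ℝ, 0 < a₀ ∧
    ∀ a : ℝ, 0 ≤ a → a ≤ a₀ → ∀ {ι : Type} [DecidableEq ι] (S : Finset ι) (θ : ι → ℝ),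
      2 ≤ S.card → ∑ i ∈ S, ∑ j ∈ S.erase i,
        (Real.sin (θ i - θ j) ^ 2 + a * p.eval (Real.cos (θ i - θ j) ^ 2)) ≤
          (S.card : ℝ) ^ 2 / 2 + a * ((S.card : ℝ) * ((S.card : ℝ) - 4)) := by
  sorry

end Pool.Agent.Helper8.PL.Spec
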