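import Pool.Agent.Helper8.PL.Defs

/-! Project PL: statements of the combinatorial pieces. -/

open Finset MeasureTheory
open scoped ENNReal

namespace Pool.Agent.Helper8.PL.Spec

open Wiring

variable {d : ℕ} (W : Wiring d)

/-! ### PL-G (file Basic.lean) -/

theorem pos_lt {k : ℕ} (hk : k ≤ W.M) (i : Fin d) : W.pos k i < d := by
  sorry

theorem pos_inj {k : ℕ} (hk : k ≤ W.M) {i j : Fin d} (h : W.pos k i = W.pos k j) : i = j := by
  sorry

/-- every height is taken -/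
theorem pos_surj {k : ℕ} (hk : k ≤ W.M) {x : ℕ} (hx : x < d) : ∃ i, W.pos k i = x := by
  sorry

/-- an inverted pair stays inverted -/
theorem inv_mono {k l : ℕ} (hkl : k ≤ l) (hl : l ≤ W.M) {i j : Fin d} (hij : i < j)
    (h : W.pos k j < W.pos k i) : W.pos l j < W.pos l i := by
  sorry

theorem card_B {k : ℕ} (hk : k < W.M) : (W.B k).card = W.mult k := by
  sorry

/-- the two halves of the vertex `k` -/
theorem cnt_hi (N e : ℕ) {k : ℕ} (hk : k < W.M) :
    W.cnt N e k (W.hi k) = W.cnt N e k (W.lo k) + W.u N e k := by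
  sorry

/-- the sign pattern: for two cuts, the second one to the right -/
theorem cnt_sign {N c c' k l x y : ℕ} (hkl : k ≤ l) (hl : l ≤ W.M) (hc : c < c') :
    W.cnt N c l y ≤ W.cnt N c k x ∨ W.cnt N c' k x ≤ W.cnt N c' l y := by
  sorry

/-- all classes are smaller than `m` -/
theorem sum_cnt {N m k x : ℕ} (hN : 0 < N) (hm : d ≤ m * N) (hk : k ≤ W.M) (hx : x ≤ d) :
    ∑ e ∈ range m, W.cnt N e k x = x := by
  sorry

theorem sum_mul_cnt {N m : ℕ} (hN : 0 < N) (hm : d ≤ m * N) (k x : ℕ) :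
    ∑ e ∈ range m, e * W.cnt N e k x = W.T N k x := by
  sorry

/-! ### PL-H (file Lip.lean), uses PL-G -/

/-- the counting functions are Lipschitz functions of `x` and `T` -/
theorem cnt_lip {N m k l x y : ℕ} (hN : 0 < N) (hm : d ≤ m * N) (hk : k ≤ W.M) (hl : l ≤ W.M)
    (hx : x ≤ d) (hy : y ≤ d) :
    ∑ e ∈ range m, |(W.cnt N e l y : ℝ) - W.cnt N e k x| ≤
      2 * (|(W.T N l y : ℝ) - W.T N k x| + m * |(y : ℝ) - x|) := by
  sorry

theorem T_mono {N k l x : ℕ} (hkl : k ≤ l) (hl : l ≤ W.M) (hx : x ≤ d) :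
    W.T N k x ≤ W.T N l x := by
  sorry

theorem T_mono_right {N k x y : ℕ} (hxy : x ≤ y) : W.T N k x ≤ W.T N k y := by
  sorry

theorem T_lip_right {N m k x y : ℕ} (hN : 0 < N) (hm : d ≤ m * N) (hk : k ≤ W.M) (hxy : x ≤ y) :
    W.T N k y ≤ W.T N k x + m * (y - x) := by
  sorry

theorem T_step {N m k x : ℕ} (hN : 0 < N) (hm : d ≤ m * N) (hk : k < W.M) (hx : x ≤ d) :
    W.T N (k + 1) x ≤ W.T N k x + m * W.mult k := by
  sorry

theorem T_eq {N k x : ℕ} (hk : k < W.M) (hx : x ≤ W.lo k ∨ W.hi k ≤ x) :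
    W.T N (k + 1) x = W.T N k x := by
  sorry

/-! ### PL-I (file Rect.lean), uses PL-G -/

/-- the rectangles of different vertices are disjoint -/
theorem rect_disj {N c c' k l : ℕ} (hc : c < c') (hkl : k < l) (hl : l < W.M) {r s : ℕ}
    (h1 : W.cnt N c k (W.lo k) ≤ r) (h2 : r < W.cnt N c k (W.hi k))
    (h3 : W.cnt N c' k (W.lo k) ≤ s) (h4 : s < W.cnt N c' k (W.hi k))
    (h5 : W.cnt N c l (W.lo l) ≤ r) (h6 : r < W.cnt N c l (W.hi l))
    (h7 : W.cnt N c' l (W.lo l) ≤ s) (h8 : s < W.cnt N c' l (W.hi l)) : False := by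
  sorry

/-- the area of the rectangles of a set of vertices; `V` is any set which contains them -/
theorem rect_area {N c c' : ℕ} (hc : c < c') (hd : 0 < d) (K : Finset ℕ) (hK : ∀ k ∈ K, k < W.M)
    (V : Set (ℝ × ℝ)) (hV : ∀ k ∈ K, ∀ y : ℝ × ℝ,
      (W.cnt N c k (W.lo k) : ℝ) / d ≤ y.1 → y.1 < (W.cnt N c k (W.hi k) : ℝ) / d →
      (W.cnt N c' k (W.lo k) : ℝ) / d ≤ y.2 → y.2 < (W.cnt N c' k (W.hi k) : ℝ) / d → y ∈ V) :
    ENNReal.ofReal ((∑ k ∈ K, (W.u N c k : ℝ) * W.u N c' k) / d ^ 2) ≤ volume V := by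
  sorry

/-! ### PL-J (file Pair.lean), uses PL-G -/

/-- every pair of lines meets in exactly one vertex -/
theorem pair_sum (f : Fin d → Fin d → ℝ) :
    ∑ k ∈ range W.M, ∑ i ∈ W.B k, ∑ j ∈ (W.B k).erase i, f i j =
      ∑ i, ∑ j ∈ univ.erase i, f i j := by
  sorry

/-- the area of a vertex in the dual tiling -/
theorem block_area {N m k : ℕ} (hN : 0 < N) (hm : d ≤ m * N) (hk : k < W.M) :
    ∑ x ∈ range (d + 1), ((W.T N (k + 1) x : ℝ) - W.T N k x) =
      ∑ c ∈ range m, ∑ c' ∈ range m,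
        if c < c' then ((c' : ℝ) - c) * ((W.u N c k : ℝ) * W.u N c' k) else 0 := by
  sorry

end Pool.Agent.Helper8.PL.Spec
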