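import Pool.Agent.Helper8.PL.St.Loc

/-! Project PL: statements of the global pieces. -/

open Finset MeasureTheory
open scoped ENNReal NNReal

namespace Pool.Agent.Helper8.PL.Spec

open Wiring

/-! ### PL-Q (file MLe.lean) -/

/-- Proof. If `VQ` is empty the mass is `0`. Otherwise let `k0 ∈ VQ`. For `k ∈ VQ` the points
`(lo k / d, tt k (lo k))` and `(lo k0 / d, tt k0 (lo k0))` differ by at most `l` in each
coordinate, so by `cnt_lip` `|F e k (lo k) - F e k0 (lo k0)| ≤ 2 (l + m l) = L l`, where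
`L = 2 m + 2`. So the rectangles of all `k ∈ VQ` are contained in a product of two intervals of
length `2 L l + δ ≤ 3 L l`. Conclude with `rect_area`. -/
theorem mass_le {d : ℕ} (W : Wiring d) {N m c c' : ℕ} {s t l δ : ℝ} (hd : 0 < d) (hN : 0 < N)
    (hm : d ≤ m * N) (hc : c < c') (hc' : c' < m) (hl : 0 < l) (hδ : δ ≤ l)
    (hmult : ∀ k < W.M, (W.mult k : ℝ) ≤ δ * d) :
    W.mass N c c' (W.VQ N s t l) ≤ 9 * (2 * m + 2) ^ 2 * l ^ 2 := by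
  sorry

/-! ### PL-R (file Bdry.lean) -/

open Classical in
/-- Proof. Let `l = 1 / 2 ^ n`, so `1 / d ≤ l`. Let `q` be in the set, `s = q.1 l`, `t = q.2 l`.
As `VQ` is not empty, `s < 1`, so `q.1 < 2 ^ n`. If `left` or `right` fails, then `q.1` is one of
`0`, `1`, `2`, `2 ^ n - 1`, `2 ^ n - 2`: at most `5 m 2 ^ n` squares. Let now `q.1 < 2 ^ n` be
given, `x* = ⌊s d⌋`, so `s - l < x* / d ≤ s`. Let `k ∈ VQ`. If `bot` fails for `x`, then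
`t - 3 l < tt 0 x ≤ tt 0 x* + 4 m l` (`T_mono_right`, `T_lip_right`) and
`tt 0 x* ≤ tt 0 (lo k) ≤ tt k (lo k) < t + l` (`T_mono`): at most `4 m + 4` values of `q.2`. If
`top` fails for `x`, then `tt M x* ≤ tt M x + 3 m l < t + 3 l + 3 m l` and
`t ≤ tt k (lo k) ≤ tt M (lo k) ≤ tt M x* + 2 m l`: at most `5 m + 3` values of `q.2`. -/
theorem card_boundary {d : ℕ} (W : Wiring d) {N m n : ℕ} (hd : 0 < d) (hN : 0 < N)
    (hm : d ≤ m * N) (h1 : 2 ^ n ≤ d) :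
    ((range (m * 2 ^ n) ×ˢ range (m * 2 ^ n)).filter fun q : ℕ × ℕ =>
      (W.VQ N ((q.1 : ℝ) / 2 ^ n) ((q.2 : ℝ) / 2 ^ n) (1 / 2 ^ n)).Nonempty ∧
        ¬ W.Inner N ((q.1 : ℝ) / 2 ^ n) ((q.2 : ℝ) / 2 ^ n) (1 / 2 ^ n)).card ≤
      40 * m * 2 ^ n := by
  sorry

/-! ### PL-S (file Ext.lean) -/

/-- Proof. By `cnt_lip` the vector `(F e k x)_e` depends only on the point `(x / d, tt k x)` and
is a Lipschitz function of it on the set of these points, for the sup norms, with the constant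
`2 (1 + m)`. Extend it with `LipschitzOnWith.extend_pi`. -/
theorem exists_ext {d : ℕ} (W : Wiring d) {N m : ℕ} (hd : 0 < d) (hN : 0 < N)
    (hm : d ≤ m * N) : ∃ φ : ℝ × ℝ → (Fin m → ℝ), LipschitzWith (2 * m + 2 : ℝ≥0) φ ∧
      ∀ k ≤ W.M, ∀ x ≤ d, ∀ e : Fin m, φ ((x : ℝ) / d, W.tt N k x) e = W.F N e k x := by
  sorry

/-- Proof. `v e = (A (1, 0) e, A (0, 1) e)`, `b' e = b e` (and `0` for `e ≥ m`). -/
theorem loc_of_aff {d : ℕ} (W : Wiring d) {N m n : ℕ} {ε δ : ℝ} (hd : 0 < d) (hN : 0 < N)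
    (hm : d ≤ m * N) (hmult : ∀ k < W.M, (W.mult k : ℝ) ≤ δ * d) (hone : 1 ≤ δ * d)
    {φ : ℝ × ℝ → (Fin m → ℝ)}
    (hφ : ∀ k ≤ W.M, ∀ x ≤ d, ∀ e : Fin m, φ ((x : ℝ) / d, W.tt N k x) e = W.F N e k x)
    {q : ℕ × ℕ} (hq : W.Inner N ((q.1 : ℝ) / 2 ^ n) ((q.2 : ℝ) / 2 ^ n) (1 / 2 ^ n))
    (A : (ℝ × ℝ) →L[ℝ] (Fin m → ℝ)) (b : Fin m → ℝ) (hA : ‖A‖ ≤ (2 * m + 2 : ℝ≥0))
    (hAb : ∀ z : ℝ × ℝ, dist z ((q.1 : ℝ) / 2 ^ n, (q.2 : ℝ) / 2 ^ n) ≤ 4 / 2 ^ n →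
      ‖φ z - A z - b‖ ≤ ε / 2 ^ n) :
    ∃ (v : ℕ → ℝ × ℝ) (b' : ℕ → ℝ),
      W.Loc N m ((q.1 : ℝ) / 2 ^ n) ((q.2 : ℝ) / 2 ^ n) (1 / 2 ^ n) δ ε v b' := by
  sorry

/-! ### PL-T (file Split.lean) -/

/-- Proof. `pair_sum`; every class has at most `N` lines. -/
theorem same_class {d : ℕ} (W : Wiring d) {N : ℕ} (hN : 0 < N) :
    ∑ k ∈ range W.M, ∑ i ∈ W.B k, ∑ j ∈ (W.B k).erase i,
      (if (i : ℕ) / N = (j : ℕ) / N then (1 : ℝ) else 0) ≤ N * d := by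
  sorry

/-- the sum over the pairs of lines in a vertex, by classes -/
theorem vertex_split {d : ℕ} (W : Wiring d) {N m : ℕ} (hN : 0 < N) (hm : d ≤ m * N) (k : ℕ)
    (g : ℕ → ℕ → ℝ) :
    ∑ i ∈ W.B k, ∑ j ∈ (W.B k).erase i, g ((i : ℕ) / N) ((j : ℕ) / N) =
      (∑ c ∈ range m, ∑ c' ∈ range m,
        if c = c' then 0 else (W.u N c k : ℝ) * W.u N c' k * g c c') +
      ∑ i ∈ W.B k, ∑ j ∈ (W.B k).erase i,
        (if (i : ℕ) / N = (j : ℕ) / N then g ((i : ℕ) / N) ((j : ℕ) / N) else 0) := by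
  sorry

/-- Proof. `k < M` is in `VQ` of the square `q` if and only if `q = sq k`
(`Nat.floor_eq_iff`); `lo k / d < 1 ≤ m` and `tt k (lo k) < m` (there are `lo k < d` lines below
the cut, of classes `≤ m - 1`), so `sq k` is in the range. -/
theorem sum_squares {d : ℕ} (W : Wiring d) {N m n : ℕ} (hd : 0 < d) (hN : 0 < N)
    (hm : d ≤ m * N) (g : ℕ × ℕ → ℕ → ℝ) :
    ∑ k ∈ range W.M, g (W.sq N n k) k =
      ∑ q ∈ range (m * 2 ^ n) ×ˢ range (m * 2 ^ n),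
        ∑ k ∈ W.VQ N ((q.1 : ℝ) / 2 ^ n) ((q.2 : ℝ) / 2 ^ n) (1 / 2 ^ n), g q k := by
  sorry

/-! ### PL-U (file Main.lean) -/

/-- the asymptotic lower bound for a kernel -/
theorem main_asym {φ : ℝ → ℝ} {C K₀ : ℝ} (hφ : ∀ x, |φ x| ≤ C)
    (hK : ∀ (m : ℕ) (v : ℕ → ℝ × ℝ), ∃ θ : ℕ → ℝ,
      K₀ * ∑ c ∈ range m, ∑ c' ∈ range m, |wd (v c) (v c')| ≤
        ∑ c ∈ range m, ∑ c' ∈ range m, |wd (v c) (v c')| * φ (θ c - θ c'))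
    {ε : ℝ} (hε : 0 < ε) : ∃ δ : ℝ, 0 < δ ∧ ∀ {d : ℕ} (W : Wiring d), 2 ≤ d →
      (∀ k < W.M, (W.mult k : ℝ) ≤ δ * d) → ∃ θ : ℕ → Fin d → ℝ,
        (K₀ - ε) * (d : ℝ) ^ 2 ≤ ∑ k ∈ range W.M, ∑ i ∈ W.B k, ∑ j ∈ (W.B k).erase i,
          φ (θ k i - θ k j) := by
  sorry

end Pool.Agent.Helper8.PL.Spec
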