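import Pool.Agent.Helper8.PL.Defs2
import Pool.Agent.Helper8.PL.St.Anal
import Pool.Agent.Helper8.PL.St.Comb

/-! Project PL: statements of the local pieces. -/

open Finset MeasureTheory
open scoped ENNReal

namespace Pool.Agent.Helper8.PL.Spec

open Wiring

/-! ### PL-K (file Rows.lean) -/

/-- Proof. Let `k` be the greatest `k ≤ M` with `k₀ ≤ k` and `tt k x ≤ τ`. If `k = M`, then
`tt M x = τ`. Otherwise `tt (k + 1) x > τ` and `tt (k + 1) x ≤ tt k x + m δ` by `T_step`. -/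
theorem row_dense {d : ℕ} (W : Wiring d) {N m : ℕ} {δ τ : ℝ} (hd : 0 < d) (hN : 0 < N)
    (hm : d ≤ m * N) (hδ : 0 ≤ δ) (hmult : ∀ k < W.M, (W.mult k : ℝ) ≤ δ * d) {k₀ x : ℕ}
    (hk₀ : k₀ ≤ W.M) (hx : x ≤ d) (h0 : W.tt N k₀ x ≤ τ) (h1 : τ ≤ W.tt N W.M x) :
    ∃ k, k₀ ≤ k ∧ k ≤ W.M ∧ τ - m * δ ≤ W.tt N k x ∧ W.tt N k x ≤ τ := by
  sorry

/-! ### PL-L (file ALow.lean) -/

/-- Proof. If `l = 3 m δ` the left side is `0`. Let `a = m δ` and let `x ≤ d` be a row with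
`s + δ ≤ x / d ≤ s + l`. By `row_dense` there are `k1` with `t + a ≤ tt k1 x ≤ t + 2 a` and
`k2` with `t + l - a ≤ tt k2 x ≤ t + l`; so `k1 < k2` (`T_mono`) and
`∑ k1 ≤ k < k2, (T (k + 1) x - T k x) ≥ (l - 3 a) d`. If a summand is not `0`, then
`lo k < x < hi k` (`T_eq`), so `s ≤ lo k / d < s + l` (as `x - lo k < mult k ≤ δ d`), and
`tt k x - a ≤ tt k (lo k) ≤ tt k x` (`T_lip_right`, `T_mono_right`), `t + a ≤ tt k x <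
tt (k + 1) x ≤ t + l`: so `k ∈ VQ`. The other summands of `∑ k ∈ VQ, (T (k + 1) x - T k x)` are
`≥ 0` by `T_mono`, also in the other rows `x ≤ d`. The number of the rows is at least
`(l - δ) d - 1 ≥ (l - 2 δ) d`. Sum over the rows and use `block_area`. -/
theorem area_lower {d : ℕ} (W : Wiring d) {N m : ℕ} {s t l δ ε : ℝ} {v : ℕ → ℝ × ℝ}
    {b : ℕ → ℝ} (h : W.Loc N m s t l δ ε v b) (h3 : 3 * m * δ ≤ l) (h2 : 2 * δ ≤ l) :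
    (l - 3 * m * δ) * (l - 2 * δ) ≤
      ∑ c ∈ range m, ∑ c' ∈ range m,
        if c < c' then ((c' : ℝ) - c) * W.mass N c c' (W.VQ N s t l) else 0 := by
  sorry

/-! ### PL-M (file MUp.lean) -/

/-- Proof. `area_nbhd` with `L = 2 m + 2` gives `e`; take `ε = e / 2`, `γ = e / 2` (and
`γ ≤ 1`). For `k ∈ VQ` put `z = (lo k / d, tt k (lo k))`, a point of the square. For `y` in
the rectangle of `k` (see `rect_area`) `|y.1 - F c k (lo k)| ≤ mult k / d ≤ δ ≤ e l / 2`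
(`cnt_hi`, and `u ≤ card (B k) = mult k`), and the same for `y.2` and `c'`. With `aff`, `y` is
in the set of `area_nbhd`. Conclude with `rect_area`. -/
theorem mass_upper (m : ℕ) {η : ℝ} (hη : 0 < η) : ∃ ε γ : ℝ, 0 < ε ∧ 0 < γ ∧
    ∀ {d : ℕ} (W : Wiring d) {N : ℕ} {s t l δ : ℝ} {v : ℕ → ℝ × ℝ} {b : ℕ → ℝ},
      W.Loc N m s t l δ ε v b → δ ≤ γ * l → ∀ c c', c < c' → c' < m →
        W.mass N c c' (W.VQ N s t l) ≤ (|wd (v c) (v c')| + η) * l ^ 2 := by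
  sorry

/-! ### PL-N (file WSign.lean) -/

/-- Proof. We may assume `η ≤ 1`. Take `σ₀`, `e` from `sign_lemma` with `L = 2 m + 2`. Let
`ε = e / 8` and `γ` small: `γ ≤ σ₀ / 2`, `m γ ≤ 1`, `γ ≤ 1`, `L m γ ≤ e / 4`. All the cuts below
have `|x / d - s| ≤ 3 l` and `|tt - t| ≤ 3 l`. Let `x0 = ⌈s d⌉`, `x1 = x0 + ⌊σ₀ l d⌋`,
`σ = (x1 - x0) / (l d)`, so `σ₀ / 2 ≤ σ ≤ σ₀`, `x1 / d ≤ s + 2 l`. By `row_dense` there is `k0`
with `t - m δ ≤ tt k0 x0 ≤ t`. Let `τ = (tt k0 x1 - tt k0 x0) / l`, so `0 ≤ τ ≤ m σ`. By `aff`,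
`(v e).1 σ + (v e).2 τ` differs by at most `2 ε` from `(F e k0 x1 - F e k0 x0) / l ≥ 0`. For
`0 ≤ μ ≤ 1` there is by `row_dense` a `l1 ≥ k0` with `μ' = (tt l1 x0 - tt k0 x0) / l` in
`[μ - m γ, μ]`; `cnt_sign` for the cuts `(k0, x1)`, `(l1, x0)` gives
`F c l1 x0 ≤ F c k0 x1` or `F c' k0 x1 ≤ F c' l1 x0`, so by `aff`
`μ' v2 - (v1 σ + v2 τ) ≤ 2 ε` or `μ' w2 - (w1 σ + w2 τ) ≥ - 2 ε`, where `v = v c`,
`w = v c'`. In the same way there is `l2 ≥ k0` with `μ'' = (tt l2 x1 - tt k0 x1) / l` in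
`[μ - m γ, μ]` and `cnt_sign` for `(k0, x0)`, `(l2, x1)` gives the last hypothesis of
`sign_lemma`. -/
theorem wd_ge (m : ℕ) {η : ℝ} (hη : 0 < η) : ∃ ε γ : ℝ, 0 < ε ∧ 0 < γ ∧
    ∀ {d : ℕ} (W : Wiring d) {N : ℕ} {s t l δ : ℝ} {v : ℕ → ℝ × ℝ} {b : ℕ → ℝ},
      W.Loc N m s t l δ ε v b → δ ≤ γ * l → ∀ c c', c < c' → c' < m →
        -η ≤ wd (v c) (v c') := by
  sorry

/-! ### PL-O (file WSum.lean) -/

/-- Proof. If `m = 0` then `d = 0`, impossible. `∑ e, F e k x = x / d`,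
`∑ e, e F e k x = tt k x` (`sum_cnt`, `sum_mul_cnt`). Take the cuts (all with `|x / d - s| ≤ 3 l`,
`|tt - t| ≤ 3 l`; `γ` small, `m γ ≤ 1 / 4`) `x0 = ⌈s d⌉`, `x1 = x0 + ⌊l d⌋`, and by `row_dense`
`k0` with `t - m δ ≤ tt k0 x0 ≤ t`, `k1` with `t + l - m δ ≤ tt k1 x0 ≤ t + l`, `k2` with
`t - m δ ≤ tt k2 x1 ≤ t`. The differences of the cuts 1, 0 are `(0, Δ)` with `l / 2 ≤ Δ ≤ 2 l`,
those of the cuts 2, 0 are `(Δ', Δ'')` with `l / 2 ≤ Δ' ≤ 2 l` and `|Δ''| ≤ m γ l`. So by `aff`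
`|Δ ∑ (v e).2| ≤ 2 m ε l`, `|Δ ∑ e (v e).2 - Δ| ≤ 2 m ^ 2 ε l`,
`|Δ' ∑ (v e).1 + Δ'' ∑ (v e).2 - Δ'| ≤ 2 m ε l`,
`|Δ' ∑ e (v e).1 + Δ'' ∑ e (v e).2 - Δ''| ≤ 2 m ^ 2 ε l`. Hence `∑ v e` is close to `(1, 0)` and
`∑ e v e` is close to `(0, 1)`, and the sum in the theorem is `wd (∑ v e) (∑ e v e)`
(`∑ c, ∑ c', c' wd (v c) (v c')` antisymmetrised). -/
theorem sum_wd (m : ℕ) {η : ℝ} (hη : 0 < η) : ∃ ε γ : ℝ, 0 < ε ∧ 0 < γ ∧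
    ∀ {d : ℕ} (W : Wiring d) {N : ℕ} {s t l δ : ℝ} {v : ℕ → ℝ × ℝ} {b : ℕ → ℝ},
      W.Loc N m s t l δ ε v b → δ ≤ γ * l →
        |∑ c ∈ range m, ∑ c' ∈ range m,
          (if c < c' then ((c' : ℝ) - c) * wd (v c) (v c') else 0) - 1| ≤ η := by
  sorry

/-! ### PL-P (file Locl.lean) -/

/-- Proof. Let `ε`, `γ` be the minima of those of `mass_upper`, `wd_ge`, `sum_wd` for
`η' = η / (20 (m + 1) ^ 3)`, and `γ` also so small that `5 (m + 1) γ ≤ η / 4`. Then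
`∑ (c' - c) |wd (v c) (v c')| ≤ 1 + η' + 2 m ^ 3 η'`, so the lower bound of `area_lower` and the
upper bounds of `mass_upper` for the other pairs give the lower bound for the pair `c`, `c'`. -/
theorem loc (m : ℕ) {η : ℝ} (hη : 0 < η) : ∃ ε γ : ℝ, 0 < ε ∧ 0 < γ ∧
    ∀ {d : ℕ} (W : Wiring d) {N : ℕ} {s t l δ : ℝ} {v : ℕ → ℝ × ℝ} {b : ℕ → ℝ},
      W.Loc N m s t l δ ε v b → δ ≤ γ * l → ∀ c c', c < c' → c' < m →
        |W.mass N c c' (W.VQ N s t l) - |wd (v c) (v c')| * l ^ 2| ≤ η * l ^ 2 := by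
  sorry

end Pool.Agent.Helper8.PL.Spec
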