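import Pool.Agent.Helper8.PL.St.Glob

/-! Project PL: statements of the pieces for vertices of large multiplicity. -/

open Finset MeasureTheory
open scoped ENNReal NNReal

namespace Pool.Agent.Helper8.PL.Spec

open Wiring

/-! ### PL-V (file Scale.lean) -/

/-- Proof. Choose `g : ℕ` with `K < γ * 2 ^ g` and `J : ℕ` with `2 < J * ε'`. Let `N₀ a` be the
number given by `affine_scale` for `n₁ := a`, and `a 0 = n₁`, `a (j + 1) = N₀ (a j) + g + 1`,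
`n₀ = N₀ (a J)` (we may replace `N₀ a` by the maximum with `a`). Given `φ`, there are
`n j` with `a j ≤ n j ≤ N₀ (a j)`, `j < J`, at which `φ` is good; `n j + g < n (j + 1)`, so the
intervals `(γ / 2 ^ n j, K / 2 ^ n j]` are disjoint and the sum over `j < J` of the sums of the
`ρ k ^ 2` with `ρ k` in the interval is at most `2 < J ε'`: one of them is at most `ε'`. -/
theorem scale_select (m : ℕ) (L : ℝ≥0) (B n₁ : ℕ) {ε γ K ε' : ℝ} (hε : 0 < ε) (hγ : 0 < γ)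
    (hK : 0 < K) (hε' : 0 < ε') :
    ∃ n₀ : ℕ, ∀ φ : ℝ × ℝ → (Fin m → ℝ), LipschitzWith L φ → ∀ (U : Finset ℕ) (ρ : ℕ → ℝ),
      ∑ k ∈ U, ρ k ^ 2 ≤ 2 → ∃ n, n₁ ≤ n ∧ n ≤ n₀ ∧
      (∀ S : Finset (ℕ × ℕ), S ⊆ Finset.range (B * 2 ^ n) ×ˢ Finset.range (B * 2 ^ n) →
        (∀ q ∈ S, ¬ ∃ (A : (ℝ × ℝ) →L[ℝ] (Fin m → ℝ)) (b : Fin m → ℝ), ‖A‖ ≤ L ∧
          ∀ z : ℝ × ℝ, dist z ((q.1 : ℝ) / 2 ^ n, (q.2 : ℝ) / 2 ^ n) ≤ 4 / 2 ^ n →
            ‖φ z - A z - b‖ ≤ ε / 2 ^ n) →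
        (S.card : ℝ) ≤ ε * 4 ^ n) ∧
      ∑ k ∈ U.filter (fun k => γ / 2 ^ n < ρ k ∧ ρ k ≤ K / 2 ^ n), ρ k ^ 2 ≤ ε' := by
  sorry

/-! ### PL-W (file Hole.lean) -/

open Classical in
/-- Proof. Let `l = 1 / 2 ^ n`, and let `q` be in the set, `s = q.1 l`, `t = q.2 l`; by `¬ Far`
there is an `x ≤ d` with `lo k ≤ x ≤ hi k`, `|x / d - s| ≤ 3 l`, `t - 3 l ≤ tt (k + 1) x` and
`tt k x ≤ t + 3 l`. So `q.1` is in the interval `[lo k * 2 ^ n / d - 3, hi k * 2 ^ n / d + 3]`: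
at most `mult k / d * 2 ^ n + 7` values. For a given value of `q.1` choose such an `x = x*` (for one
`q`); for another `q` in the column `|x / d - x* / d| ≤ 6 l`. Let `j ∈ VQ`, `mult j ≤ δ d`,
`y = lo j`: so `j ≠ k`, `s ≤ y / d < s + l`, `t ≤ tt j y < t + l`, `|y / d - x* / d| ≤ 4 l`.
`tt k` and `tt (k + 1)` are `m`-Lipschitz functions of `x / d` (`T_mono_right`, `T_lip_right`). If
`j < k`, then `t ≤ tt j y ≤ tt k y ≤ tt k x* + 4 m l` (`T_mono`) and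
`t ≥ tt k x - 3 l ≥ tt k x* - (6 m + 3) l`. If `k < j`, then
`t + l > tt j y ≥ tt (k + 1) y ≥ tt (k + 1) x* - 4 m l` and
`t ≤ tt (k + 1) x + 3 l ≤ tt (k + 1) x* + (6 m + 3) l`. So there are at most `20 m + 9` values of
`q.2`. (`m > 0`.) -/
theorem card_hole {d : ℕ} (W : Wiring d) {N m n k : ℕ} {δ : ℝ} (hd : 0 < d) (hN : 0 < N)
    (hm : d ≤ m * N) (hk : k < W.M) (hδ : δ * d < W.mult k) :
    (((range (m * 2 ^ n) ×ˢ range (m * 2 ^ n)).filter fun q : ℕ × ℕ =>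
      (∃ j ∈ W.VQ N ((q.1 : ℝ) / 2 ^ n) ((q.2 : ℝ) / 2 ^ n) (1 / 2 ^ n),
        (W.mult j : ℝ) ≤ δ * d) ∧
        ¬ W.Far N ((q.1 : ℝ) / 2 ^ n) ((q.2 : ℝ) / 2 ^ n) (1 / 2 ^ n) k).card : ℝ) ≤
      40 * m * ((W.mult k : ℝ) / d * 2 ^ n + 8) := by
  sorry

/-! ### PL-X (file Big.lean) -/

open Classical in
/-- Proof. Let `S` be the set of the vertices `k` with `δ d < mult k`, `r k = mult k ≥ 2`.
`∑ r (r - 1) = d (d - 1)` over all vertices (`pair_sum` with the constant function `1`, `card_B`),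
and `r ^ 2 ≤ 2 r (r - 1)`, so `card S * (δ d) ^ 2 ≤ 2 d ^ 2` and `card S ≤ 2 / δ ^ 2 =: C`. For a
line `i` let `n i` be the number of `k ∈ S` with `i ∈ B k`; so `∑ k ∈ S, r k = ∑ i, n i`. Two
different vertices have at most one common line (`pair_sum` with the indicator function of a pair, or
`inv_mono`, `sorted`, `flip`), so at most `C ^ 2` lines have `n i ≥ 2` and `∑ i, n i ≤ d + C ^ 3`.
Hence `∑ k ∈ S, r (r - 1) ≤ (1 - ε) d (d + C ^ 3) ≤ (1 - ε / 2) d ^ 2` for large `d`. -/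
theorem few_big {ε δ : ℝ} (hε : 0 < ε) (hε1 : ε < 1) (hδ : 0 < δ) : ∃ d₀ : ℕ, ∀ {d : ℕ} (W : Wiring d),
    d₀ ≤ d → (∀ k < W.M, (W.mult k : ℝ) ≤ (1 - ε) * d) →
      ∑ k ∈ (range W.M).filter (fun k => δ * d < W.mult k),
        (W.mult k : ℝ) * (W.mult k - 1) ≤ (1 - ε / 2) * (d : ℝ) ^ 2 := by
  sorry

end Pool.Agent.Helper8.PL.Spec
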